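import Pool.Agent.Y716.M.Data

/-!
# Counting multihomogeneous forms with prescribed values at one or two points; Chebyshev's
inequality for a class

Port (job M6 of project MD) of `Pool/Agent/Y716/Q/Count.lean` and `Pool/Agent/Y716/Q/Cheb.lean` to
the abstract one-point and two-point properties `Ker1`, `Ker2` of `Pool/Agent/Y716/M/Data.lean`.
-/

namespace Pool.Agent.Y510.M6

open Pool.Agent.Y716.Q Pool.Agent.Y716.M

variable {r : ℕ} {n : Fin r → ℕ}

theorem IsM.eval_leM {d : Fin r → ℕ} {R : ℝ} {B : Fin r → ℝ} {f : MvPolynomial (Var n) ℤ} (hf : IsM d R f)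
    {z : Var n → ℤ} (hz : ∀ i j, |(z ⟨i, j⟩ : ℝ)| ≤ B i) :
    |((MvPolynomial.eval z f : ℤ) : ℝ)| ≤ (monsM n d).card * R * ∏ i, B i ^ d i := by
  classical
  have h1 : MvPolynomial.eval z f = ∑ m ∈ monsM n d, f.coeff m * ∏ a, z a ^ m a := by
    rw [MvPolynomial.eval_eq']
    apply Finset.sum_subset
    · intro m hm
      exact hf.mem_monsM (MvPolynomial.mem_support_iff.mp hm)
    · intro m _ hm
      rw [MvPolynomial.notMem_support_iff.mp hm, zero_mul]
  rw [h1]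
  push_cast
  refine (Finset.abs_sum_le_sum_abs _ _).trans ?_
  have h2 : ∀ m ∈ monsM n d, |((f.coeff m : ℤ) : ℝ) * ∏ a, (z a : ℝ) ^ m a| ≤
      R * ∏ i, B i ^ d i := by
    intro m hm
    rw [abs_mul]
    apply mul_le_mul (hf.2 m) _ (abs_nonneg _) hf.nonneg
    rw [Finset.abs_prod, Fintype.prod_sigma]
    apply Finset.prod_le_prod
    · intro i _; exact Finset.prod_nonneg (fun j _ => abs_nonneg _)
    · intro i _
      rw [← mem_monsM.mp hm i, ← Finset.prod_pow_eq_pow_sum]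
      apply Finset.prod_le_prod
      · intro j _; exact abs_nonneg _
      · intro j _
        rw [abs_pow]
        exact pow_le_pow_left₀ (abs_nonneg _) (hz i j) _
  refine (Finset.sum_le_sum h2).trans ?_
  rw [Finset.sum_const, nsmul_eq_mul, mul_assoc]

open scoped Classical in
theorem cnt1M_le {d : Fin r → ℕ} {z : Var n → ℤ} {C Θ E A : ℝ} (h : Ker1 d z C Θ E) (hC : 0 < C)
    (hΘ : 0 < Θ) (hE : 0 ≤ E) (hA : 2 * C * E ≤ A) (hA0 : 0 ≤ A) (u : ℤ) :
    (((formsM n d A).filter (fun f => MvPolynomial.eval z f = u)).card : ℝ) * (A * Θ) ≤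
      2 * C * (formsM n d (2 * A)).card := by
  obtain ⟨N, hN⟩ : ∃ N, N = A * Θ / (2 * C) := ⟨_, rfl⟩
  have hN0 : 0 ≤ N := by rw [hN]; positivity
  have hone : ∀ s : ℤ, s ∈ ivl (-N) N → ∃ g : MvPolynomial (Var n) ℤ, IsM d A g ∧
      MvPolynomial.eval z g = s := by
    intro s hs
    rw [mem_ivl, ← abs_le] at hs
    obtain ⟨g, h1, h2⟩ := h s
    refine ⟨g, h1.mono ?_, h2⟩
    have h3 : |(s : ℝ)| / Θ ≤ A / (2 * C) := by
      rw [div_le_iff₀ hΘ]
      refine hs.trans (le_of_eq ?_)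
      rw [hN]; ring
    have h4 : C * (|(s : ℝ)| / Θ) ≤ A / 2 := by
      have := mul_le_mul_of_nonneg_left h3 hC.le
      refine this.trans (le_of_eq ?_)
      field_simp
    linarith
  choose! G hG1 hG2 using hone
  have key := count_abs ((formsM n d A).filter (fun f => MvPolynomial.eval z f = u))
    (formsM n d (2 * A)) z z (ivl (-N) N) (fun _ => {0}) (K := 1) (L := 1)
    one_ne_zero one_ne_zero G (fun _ => 0) (fun s hs => by rw [hG2 s hs, one_mul])
    (fun s _ w hw => by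
      rw [Finset.mem_singleton] at hw
      subst hw; simp) u u
    (fun f hf => ⟨(Finset.mem_filter.mp hf).2, (Finset.mem_filter.mp hf).2⟩)
    (fun f hf s hs w _ => by
      rw [mem_formsM, add_zero]
      have := (mem_formsM.mp (Finset.mem_filter.mp hf).1).add (hG1 s hs)
      exact this.mono (by linarith))
  simp only [Finset.card_singleton, Finset.sum_const, smul_eq_mul, mul_one] at key
  have key' := (Nat.cast_le (α := ℝ)).mpr key
  push_cast at key'
  have h5 := card_ivl_sym_ge hN0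
  have h6 := mul_le_mul_of_nonneg_left h5
    (Nat.cast_nonneg (α := ℝ) ((formsM n d A).filter (fun f => MvPolynomial.eval z f = u)).card)
  have h7 := h6.trans key'
  have h8 : A * Θ = 2 * C * N := by
    rw [hN]; field_simp
  rw [h8]
  nlinarith

open scoped Classical in
theorem cnt1M_ge {d : Fin r → ℕ} {z : Var n → ℤ} {C Θ E A A' Δ : ℝ} (h : Ker1 d z C Θ E) (hC : 0 ≤ C)
    (hΘ : 0 < Θ) (hE : 0 ≤ E) (hΔ : 0 ≤ Δ) (hA : A' + C * (Δ / Θ + E) ≤ A) (u : ℤ) :
    (((formsM n d A').filter (fun f => |((MvPolynomial.eval z f - u : ℤ) : ℝ)| ≤ Δ)).card : ℝ)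
    ≤ ((formsM n d A).filter (fun f => MvPolynomial.eval z f = u)).card * (2 * Δ + 1) := by
  have hone : ∀ s : ℤ, s ∈ ivl (-Δ) Δ → ∃ g : MvPolynomial (Var n) ℤ,
      IsM d (C * (Δ / Θ + E)) g ∧ MvPolynomial.eval z g = s := by
    intro s hs
    rw [mem_ivl, ← abs_le] at hs
    obtain ⟨g, h1, h2⟩ := h s
    refine ⟨g, h1.mono ?_, h2⟩
    apply mul_le_mul_of_nonneg_left _ hC
    have := div_le_div_of_nonneg_right hs hΘ.le
    linarith
  choose! G hG1 hG2 using hone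
  have hmem : ∀ f : MvPolynomial (Var n) ℤ, |((MvPolynomial.eval z f - u : ℤ) : ℝ)| ≤ Δ →
      u - MvPolynomial.eval z f ∈ ivl (-Δ) Δ := by
    intro f hf
    rw [mem_ivl, ← abs_le]
    have : ((u - MvPolynomial.eval z f : ℤ) : ℝ) = -((MvPolynomial.eval z f - u : ℤ) : ℝ) := by
      push_cast; ring
    rw [this, abs_neg]
    exact hf
  have h1 : ((formsM n d A').filter
      (fun f => |((MvPolynomial.eval z f - u : ℤ) : ℝ)| ≤ Δ)).card ≤
      (((formsM n d A).filter (fun f => MvPolynomial.eval z f = u)) ×ˢ ivl (-Δ) Δ).card := by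
    apply Finset.card_le_card_of_injOn
      (fun f => (f + G (u - MvPolynomial.eval z f), u - MvPolynomial.eval z f))
    · intro f hf
      obtain ⟨hf1, hf2⟩ := Finset.mem_filter.mp (Finset.mem_coe.mp hf)
      have h2 := hmem f hf2
      simp only [Finset.coe_product, Set.mem_prod, Finset.mem_coe, Finset.mem_filter]
      refine ⟨⟨?_, ?_⟩, h2⟩
      · rw [mem_formsM]
        exact ((mem_formsM.mp hf1).add (hG1 _ h2)).mono hA
      · rw [map_add, hG2 _ h2]; ring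
    · intro f hf f' hf' heq
      simp only [Prod.mk.injEq] at heq
      rw [heq.2] at heq
      exact add_right_cancel heq.1
  rw [Finset.card_product] at h1
  have h1' := (Nat.cast_le (α := ℝ)).mpr h1
  rw [Nat.cast_mul] at h1'
  refine h1'.trans ?_
  apply mul_le_mul_of_nonneg_left _ (Nat.cast_nonneg _)
  have := card_ivl_le (a := -Δ) (b := Δ) (by linarith)
  linarith

open scoped Classical in
theorem cnt2M_le {d : Fin r → ℕ} {z w : Var n → ℤ} {G : ℤ} {C C' Θ Θ' E E' A : ℝ}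
    (h1 : Ker1 d z C Θ E) (h2 : Ker2 d z w G C' Θ' E') (hC : 0 < C) (hC' : 0 < C') (hΘ : 0 < Θ)
    (hΘ' : 0 < Θ') (hE : 0 ≤ E) (hE' : 0 ≤ E') (hG : G ≠ 0) (hA : 2 * C * E ≤ A)
    (hA' : 2 * C' * E' ≤ A) (hA0 : 0 ≤ A) (u v : ℤ) :
    (((formsM n d A).filter
      (fun f => MvPolynomial.eval z f = u ∧ MvPolynomial.eval w f = v)).card : ℝ) *
      ((A * Θ) * (A * Θ')) ≤ 4 * C * C' * |(G : ℝ)| * (formsM n d (3 * A)).card := by
  have hg1' : 0 < |(G : ℝ)| := by positivity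
  obtain ⟨N₁, hN₁⟩ : ∃ N₁, N₁ = A * Θ / (2 * C) := ⟨_, rfl⟩
  obtain ⟨N₂, hN₂⟩ : ∃ N₂, N₂ = A * Θ' / (2 * C' * |(G : ℝ)|) := ⟨_, rfl⟩
  have hN₁0 : 0 ≤ N₁ := by rw [hN₁]; positivity
  have hN₂0 : 0 ≤ N₂ := by rw [hN₂]; positivity
  have hone : ∀ s : ℤ, s ∈ ivl (-N₁) N₁ → ∃ g : MvPolynomial (Var n) ℤ, IsM d A g ∧
      MvPolynomial.eval z g = s := by
    intro s hs
    rw [mem_ivl, ← abs_le] at hs
    obtain ⟨g, h3, h4⟩ := h1 s
    refine ⟨g, h3.mono ?_, h4⟩
    have h3 : |(s : ℝ)| / Θ ≤ A / (2 * C) := by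
      rw [div_le_iff₀ hΘ]
      refine hs.trans (le_of_eq ?_)
      rw [hN₁]; ring
    have h4 : C * (|(s : ℝ)| / Θ) ≤ A / 2 := by
      have := mul_le_mul_of_nonneg_left h3 hC.le
      refine this.trans (le_of_eq ?_)
      field_simp
    linarith
  choose! F hF1 hF2 using hone
  have htwo : ∀ t : ℤ, t ∈ ivl (-N₂) N₂ → ∃ g : MvPolynomial (Var n) ℤ, IsM d A g ∧
      MvPolynomial.eval z g = 0 ∧ MvPolynomial.eval w g = G * t := by
    intro t ht
    rw [mem_ivl, ← abs_le] at ht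
    obtain ⟨g, h3, h4, h5⟩ := h2 (G * t) ⟨t, rfl⟩
    refine ⟨g, h3.mono ?_, h4, h5⟩
    push_cast
    rw [abs_mul]
    have h4 : |(G : ℝ)| * |(t : ℝ)| / Θ' ≤ A / (2 * C') := by
      rw [div_le_iff₀ hΘ']
      have h5 := mul_le_mul_of_nonneg_left ht hg1'.le
      refine h5.trans (le_of_eq ?_)
      rw [hN₂]
      field_simp
    have h5 : C' * (|(G : ℝ)| * |(t : ℝ)| / Θ') ≤ A / 2 := by
      have := mul_le_mul_of_nonneg_left h4 hC'.le
      refine this.trans (le_of_eq ?_)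
      field_simp
    linarith
  choose! H hH1 hH2 hH3 using htwo
  have key := count_abs ((formsM n d A).filter
      (fun f => MvPolynomial.eval z f = u ∧ MvPolynomial.eval w f = v))
    (formsM n d (3 * A)) z w (ivl (-N₁) N₁) (fun _ => ivl (-N₂) N₂) (K := 1) (L := G)
    one_ne_zero hG F H (fun s hs => by rw [hF2 s hs, one_mul])
    (fun s _ t ht => ⟨hH2 t ht, hH3 t ht⟩) u v
    (fun f hf => (Finset.mem_filter.mp hf).2)
    (fun f hf s hs t ht => by
      rw [mem_formsM]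
      have := ((mem_formsM.mp (Finset.mem_filter.mp hf).1).add (hF1 s hs)).add (hH1 t ht)
      exact this.mono (by linarith))
  simp only [Finset.sum_const, smul_eq_mul] at key
  have key' := (Nat.cast_le (α := ℝ)).mpr key
  push_cast at key'
  obtain ⟨S₀, hS₀⟩ : ∃ S₀ : ℝ, (((formsM n d A).filter
      (fun f => MvPolynomial.eval z f = u ∧ MvPolynomial.eval w f = v)).card : ℝ) = S₀ := ⟨_, rfl⟩
  rw [hS₀] at key' ⊢
  have hS₀0 : 0 ≤ S₀ := by rw [← hS₀]; exact Nat.cast_nonneg _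
  have h5 : N₁ * N₂ ≤ ((ivl (-N₁) N₁).card : ℝ) * ((ivl (-N₂) N₂).card : ℝ) :=
    mul_le_mul (card_ivl_sym_ge hN₁0) (card_ivl_sym_ge hN₂0) hN₂0 (Nat.cast_nonneg _)
  have h6 := (mul_le_mul_of_nonneg_left h5 hS₀0).trans key'
  have h7 : A * Θ * (A * Θ') = 4 * C * C' * |(G : ℝ)| * (N₁ * N₂) := by
    rw [hN₁, hN₂]; field_simp; ring
  rw [h7]
  have h8 : 0 ≤ 4 * C * C' * |(G : ℝ)| := by positivity
  nlinarith [mul_le_mul_of_nonneg_left h6 h8]

open scoped Classical in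
theorem cnt2M_cond {d : Fin r → ℕ} {z w : Var n → ℤ} {G : ℤ} {C C' Θ E E' A A₂ Δ κ M : ℝ}
    (h1 : Ker1 d z C Θ E) (h2 : Ker2 d z w G C' (κ * Θ) E') (hC : 0 < C) (hC' : 0 < C')
    (hΘ : 0 < Θ) (hE : 0 ≤ E) (hE' : 0 ≤ E') (hκ : 0 < κ) (hM0 : 0 ≤ M)
    (hM : ∀ (f : MvPolynomial (Var n) ℤ) (R : ℝ), IsM d R f →
      |((MvPolynomial.eval w f : ℤ) : ℝ)| ≤ M * R * Θ)
    (u v : ℤ) {K D : ℕ} (hK : 0 < K) (hD : 0 < D) (hG : G ≠ 0) (hgKD : G ∣ (K * D : ℤ))
    (hΔ : 0 ≤ Δ) (hΔK : K * D ≤ Δ)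
    (hA : A + (C + C' * (1 + M * C) / κ) * (Δ / Θ + K * E) + C' * E' ≤ A₂) :
    (((formsM n d A).filter
      (fun f => MvPolynomial.eval z f = u ∧ MvPolynomial.eval w f = v)).card : ℝ) *
      ((2 * Δ / K - 1) * (2 * Δ / (K * D) - 1))
      ≤ ((formsM n d A₂).filter
      (fun f => ((K : ℤ) ∣ MvPolynomial.eval z f - u ∧
        |((MvPolynomial.eval z f - u : ℤ) : ℝ)| ≤ Δ) ∧
        ((K : ℤ) ∣ MvPolynomial.eval w f - v ∧
        |((MvPolynomial.eval w f - v : ℤ) : ℝ)| ≤ Δ))).card := by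
  have hKr : (1:ℝ) ≤ K := by exact_mod_cast hK
  have hKr0 : (0:ℝ) < K := by linarith
  have hDr : (1:ℝ) ≤ D := by exact_mod_cast hD
  have hDr0 : (0:ℝ) < D := by linarith
  -- first shifts
  have hone : ∀ s : ℤ, s ∈ ivl (-(Δ / K)) (Δ / K) → ∃ g : MvPolynomial (Var n) ℤ,
      IsM d (C * (Δ / K / Θ + E)) g ∧ MvPolynomial.eval z g = s := by
    intro s hs
    rw [mem_ivl, ← abs_le] at hs
    obtain ⟨g, h3, h4⟩ := h1 s
    refine ⟨g, h3.mono ?_, h4⟩
    apply mul_le_mul_of_nonneg_left _ hC.le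
    have := div_le_div_of_nonneg_right hs hΘ.le
    linarith
  choose! F hF1 hF2 using hone
  have hKG : ∀ s ∈ ivl (-(Δ / K)) (Δ / K),
      IsM d (C * (Δ / Θ + K * E)) (MvPolynomial.C (K : ℤ) * F s) := by
    intro s hs
    refine ((hF1 s hs).C_mul (K : ℤ)).mono (le_of_eq ?_)
    have : |((K : ℤ) : ℝ)| = K := by
      rw [Int.cast_natCast, abs_of_pos hKr0]
    rw [this]
    field_simp
  have hKGy : ∀ s ∈ ivl (-(Δ / K)) (Δ / K),
      |((MvPolynomial.eval w (MvPolynomial.C (K : ℤ) * F s) : ℤ) : ℝ)| ≤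
        M * C * (Δ / Θ + K * E) * Θ := by
    intro s hs
    have := hM _ _ (hKG s hs)
    refine this.trans (le_of_eq ?_)
    ring
  -- second shifts
  obtain ⟨W, hW⟩ : ∃ W : ℤ → Finset ℤ, W = fun s =>
    ivl ((-Δ - (MvPolynomial.eval w (F s) : ℤ) * K) / (K * D))
    ((Δ - (MvPolynomial.eval w (F s) : ℤ) * K) / (K * D)) := ⟨_, rfl⟩
  have hWmem : ∀ s t, t ∈ W s → |(((K : ℤ) * MvPolynomial.eval w (F s) + K * D * t : ℤ) : ℝ)| ≤ Δ := by
    intro s t ht
    rw [hW] at ht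
    simp only at ht
    rw [mem_ivl, div_le_iff₀ (by positivity), le_div_iff₀ (by positivity)] at ht
    rw [abs_le]
    push_cast
    constructor
    · linarith [ht.1]
    · linarith [ht.2]
  have hvb : ∀ s ∈ ivl (-(Δ / K)) (Δ / K), ∀ t ∈ W s, |(((K * D : ℤ) * t : ℤ) : ℝ)| ≤
      (1 + M * C) * (Δ / Θ + K * E) * Θ := by
    intro s hs t ht
    have h1 := hWmem s t ht
    have h2 := hKGy s hs
    rw [map_mul, MvPolynomial.eval_C] at h2
    have h3 : (((K * D : ℤ) * t : ℤ) : ℝ) =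
        (((K : ℤ) * MvPolynomial.eval w (F s) + K * D * t : ℤ) : ℝ) -
        (((K : ℤ) * MvPolynomial.eval w (F s) : ℤ) : ℝ) := by
      push_cast; ring
    rw [h3]
    refine (abs_sub _ _).trans ((add_le_add h1 h2).trans ?_)
    have h4 : Δ ≤ (Δ / Θ + K * E) * Θ := by
      rw [add_mul, div_mul_cancel₀ _ hΘ.ne']
      have : 0 ≤ K * E * Θ := by positivity
      linarith
    nlinarith
  have htwo : ∀ t : ℤ, |(((K * D : ℤ) * t : ℤ) : ℝ)| ≤
      (1 + M * C) * (Δ / Θ + K * E) * Θ → ∃ g : MvPolynomial (Var n) ℤ,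
      IsM d (C' * ((1 + M * C) * (Δ / Θ + K * E) / κ + E')) g ∧
      MvPolynomial.eval z g = 0 ∧ MvPolynomial.eval w g = (K * D : ℤ) * t := by
    intro t ht
    obtain ⟨g, h3, h4, h5⟩ := h2 ((K * D : ℤ) * t) (Dvd.dvd.mul_right hgKD t)
    refine ⟨g, h3.mono ?_, h4, h5⟩
    apply mul_le_mul_of_nonneg_left _ hC'.le
    apply add_le_add_left
    rw [div_le_div_iff₀ (by positivity) hκ]
    have h5 := mul_le_mul_of_nonneg_right ht hκ.le
    refine h5.trans (le_of_eq ?_)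
    ring
  choose! H hH1 hH2 hH3 using htwo
  have key := count_abs ((formsM n d A).filter
      (fun f => MvPolynomial.eval z f = u ∧ MvPolynomial.eval w f = v))
    ((formsM n d A₂).filter
      (fun f => ((K : ℤ) ∣ MvPolynomial.eval z f - u ∧
        |((MvPolynomial.eval z f - u : ℤ) : ℝ)| ≤ Δ) ∧
        ((K : ℤ) ∣ MvPolynomial.eval w f - v ∧
        |((MvPolynomial.eval w f - v : ℤ) : ℝ)| ≤ Δ)))
    z w (ivl (-(Δ / K)) (Δ / K)) W (K := (K : ℤ)) (L := (K * D : ℤ))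
    (by exact_mod_cast hK.ne') (by positivity) (fun s => MvPolynomial.C (K : ℤ) * F s) H
    (fun s hs => by rw [map_mul, MvPolynomial.eval_C, hF2 s hs])
    (fun s hs t ht => ⟨hH2 t (hvb s hs t ht), hH3 t (hvb s hs t ht)⟩) u v
    (fun f hf => (Finset.mem_filter.mp hf).2)
    (fun f hf s hs t ht => by
      obtain ⟨hf1, hf2, hf3⟩ := Finset.mem_filter.mp hf
      have hwb := hvb s hs t ht
      rw [Finset.mem_filter]
      refine ⟨?_, ⟨?_, ?_⟩, ?_, ?_⟩
      · rw [mem_formsM]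
        have := ((mem_formsM.mp hf1).add (hKG s hs)).add (hH1 t hwb)
        refine this.mono (le_trans (le_of_eq ?_) hA)
        ring
      · rw [map_add, map_add, hf2, hH2 t hwb, map_mul, MvPolynomial.eval_C]
        exact ⟨MvPolynomial.eval z (F s), by ring⟩
      · rw [map_add, map_add, hf2, hH2 t hwb, map_mul, MvPolynomial.eval_C, hF2 s hs]
        have h1 := hs
        rw [mem_ivl, ← abs_le] at h1
        have h2 : ((u + (K : ℤ) * s + 0 - u : ℤ) : ℝ) = K * (s : ℝ) := by push_cast; ring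
        rw [h2, abs_mul, abs_of_pos hKr0]
        have h3 := mul_le_mul_of_nonneg_left h1 hKr0.le
        rwa [mul_div_cancel₀ _ hKr0.ne'] at h3
      · rw [map_add, map_add, hf3, hH3 t hwb, map_mul, MvPolynomial.eval_C]
        exact ⟨MvPolynomial.eval w (F s) + D * t, by ring⟩
      · rw [map_add, map_add, hf3, hH3 t hwb, map_mul, MvPolynomial.eval_C]
        have h2 : v + (K : ℤ) * MvPolynomial.eval w (F s) + (K * D : ℤ) * t - v =
          (K : ℤ) * MvPolynomial.eval w (F s) + K * D * t := by ring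
        rw [h2]
        exact hWmem s t ht)
  have key' := (Nat.cast_le (α := ℝ)).mpr key
  rw [Nat.cast_mul, Nat.cast_sum] at key'
  refine le_trans ?_ key'
  apply mul_le_mul_of_nonneg_left _ (Nat.cast_nonneg _)
  have h1 : ∀ s ∈ ivl (-(Δ / K)) (Δ / K), 2 * Δ / (K * D) - 1 ≤ ((W s).card : ℝ) := by
    intro s _
    have := card_ivl_ge ((-Δ - (MvPolynomial.eval w (F s) : ℤ) * K) / (K * D))
      ((Δ - (MvPolynomial.eval w (F s) : ℤ) * K) / (K * D))
    rw [hW]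
    refine le_trans (le_of_eq ?_) this
    field_simp
    ring
  refine le_trans ?_ (Finset.sum_le_sum h1)
  rw [Finset.sum_const, nsmul_eq_mul]
  apply mul_le_mul_of_nonneg_right
  · have := card_ivl_ge (-(Δ / K)) (Δ / K)
    refine le_trans (le_of_eq ?_) this
    ring
  · rw [sub_nonneg, le_div_iff₀ (by positivity)]
    linarith

open scoped Classical in
theorem chebyshevM {d : Fin r → ℕ} {fc : MvPolynomial (Var n) ℤ} {S J : ℕ} (hS : 0 < S) (hJ : 0 < J)
    (X : Finset (Var n → ℤ)) (u : (Var n → ℤ) → ℤ)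
    (hu : ∀ x ∈ X, MvPolynomial.eval x fc = -(((S * J : ℕ) : ℤ) * u x))
    {C Θ E A A' Δ : ℝ} (hker : ∀ x ∈ X, Ker1 d x C Θ E) (hC : 0 ≤ C) (hΘ : 0 < Θ) (hE : 0 ≤ E)
    (hΔ : 0 ≤ Δ) (hA : A' + C * (Δ / Θ + E) ≤ A) {R E₁ : ℝ} (hE₁ : 0 ≤ E₁)
    (hR : ∀ g ∈ formsM n d A', R ≤
      ((X.filter (fun x =>
        |((MvPolynomial.eval x (mem' fc S J g) : ℤ) : ℝ)| ≤ (S * J : ℕ) * Δ)).card : ℝ))
    (hRE : E₁ * (formsM n d A).card * (2 * Δ + 1) ≤ (formsM n d A').card * R) :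
    (((formsM n d A).filter (fun g => ¬ ZeroInM X (mem' fc S J g))).card : ℝ) * E₁ ^ 2 ≤
      ∑ p ∈ X ×ˢ X, (c2M d A u p : ℝ) - E₁ ^ 2 * (formsM n d A).card := by
  obtain ⟨G, hG⟩ : ∃ G, G = formsM n d A := ⟨_, rfl⟩
  obtain ⟨G', hG'⟩ : ∃ G', G' = formsM n d A' := ⟨_, rfl⟩
  rw [← hG'] at hR
  rw [← hG, ← hG'] at hRE
  rw [← hG]
  have hSJ : (0:ℝ) < ((S * J : ℕ) : ℝ) := by exact_mod_cast Nat.mul_pos hS hJ
  have hSJZ : ((S * J : ℕ) : ℤ) ≠ 0 := by exact_mod_cast (Nat.mul_pos hS hJ).ne'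
  have hev : ∀ g, ∀ x ∈ X, MvPolynomial.eval x (mem' fc S J g) =
      ((S * J : ℕ) : ℤ) * (MvPolynomial.eval x g - u x) := by
    intro g x hx
    unfold mem'
    rw [map_add, map_mul, MvPolynomial.eval_C, hu x hx]; ring
  obtain ⟨Nf, hNf⟩ : ∃ Nf : MvPolynomial (Var n) ℤ → ℝ, Nf = fun g =>
    ((X.filter (fun x => MvPolynomial.eval x g = u x)).card : ℝ) := ⟨_, rfl⟩
  -- second moment
  have hM2 : ∑ g ∈ G, (Nf g) ^ 2 = ∑ p ∈ X ×ˢ X, (c2M d A u p : ℝ) := by
    have h1 : ∀ g, (Nf g) ^ 2 = ∑ p ∈ X ×ˢ X,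
        (if MvPolynomial.eval p.1 g = u p.1 ∧ MvPolynomial.eval p.2 g = u p.2 then (1:ℝ) else 0) := by
      intro g
      rw [hNf, sq]
      simp only
      rw [Finset.card_filter]
      push_cast
      rw [Finset.sum_mul_sum, Finset.sum_product]
      refine Finset.sum_congr rfl (fun x _ => ?_)
      refine Finset.sum_congr rfl (fun y _ => ?_)
      by_cases h1 : MvPolynomial.eval x g = u x
      · by_cases h2 : MvPolynomial.eval y g = u y
        · simp [h1, h2]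
        · simp [h1, h2]
      · simp [h1]
    simp only [h1]
    rw [Finset.sum_comm]
    refine Finset.sum_congr rfl (fun p _ => ?_)
    unfold c2M
    rw [Finset.card_filter, hG]
    push_cast
    rfl
  -- first moment
  have hM1 : E₁ * G.card ≤ ∑ g ∈ G, Nf g := by
    have h1 : (G'.card : ℝ) * R ≤ (∑ g ∈ G, Nf g) * (2 * Δ + 1) := by
      calc (G'.card : ℝ) * R = ∑ _g ∈ G', R := by rw [Finset.sum_const, nsmul_eq_mul]
        _ ≤ ∑ g ∈ G', ((X.filter (fun x =>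
            |((MvPolynomial.eval x (mem' fc S J g) : ℤ) : ℝ)| ≤ (S * J : ℕ) * Δ)).card : ℝ) :=
            Finset.sum_le_sum (fun g hg => hR g hg)
        _ = ∑ g ∈ G', ∑ x ∈ X, (if |((MvPolynomial.eval x g - u x : ℤ) : ℝ)| ≤ Δ then (1:ℝ)
            else 0) := by
            refine Finset.sum_congr rfl (fun g _ => ?_)
            rw [Finset.card_filter]
            push_cast
            refine Finset.sum_congr rfl (fun x hx => ?_)
            have h2 : |((MvPolynomial.eval x (mem' fc S J g) : ℤ) : ℝ)| ≤ ((S * J : ℕ) : ℝ) * Δ ↔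
                |((MvPolynomial.eval x g - u x : ℤ) : ℝ)| ≤ Δ := by
              rw [hev g x hx, Int.cast_mul, abs_mul]
              have h3 : |(((S * J : ℕ) : ℤ) : ℝ)| = ((S * J : ℕ) : ℝ) := by
                rw [Int.cast_natCast, abs_of_pos hSJ]
              rw [h3]
              exact mul_le_mul_iff_right₀ hSJ
            push_cast at h2
            by_cases h3 : |((MvPolynomial.eval x g : ℤ) : ℝ) - ((u x : ℤ) : ℝ)| ≤ Δ
            · rw [if_pos h3, if_pos (h2.mpr h3)]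
            · rw [if_neg h3, if_neg (fun h4 => h3 (h2.mp h4))]
        _ = ∑ x ∈ X, ((G'.filter (fun g => |((MvPolynomial.eval x g - u x : ℤ) : ℝ)| ≤ Δ)).card : ℝ)
            := by
            rw [Finset.sum_comm]
            refine Finset.sum_congr rfl (fun x _ => ?_)
            rw [Finset.card_filter]
            push_cast
            rfl
        _ ≤ ∑ x ∈ X, ((G.filter (fun g => MvPolynomial.eval x g = u x)).card : ℝ) * (2 * Δ + 1) := by
            refine Finset.sum_le_sum (fun x hx => ?_)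
            rw [hG, hG']
            exact cnt1M_ge (hker x hx) hC hΘ hE hΔ hA (u x)
        _ = (∑ x ∈ X, ((G.filter (fun g => MvPolynomial.eval x g = u x)).card : ℝ)) * (2 * Δ + 1)
            := by rw [Finset.sum_mul]
        _ = (∑ g ∈ G, Nf g) * (2 * Δ + 1) := by
            congr 1
            rw [hNf]
            simp only [Finset.card_filter, Nat.cast_sum]
            exact Finset.sum_comm
    have h2 : E₁ * G.card * (2 * Δ + 1) ≤ (∑ g ∈ G, Nf g) * (2 * Δ + 1) := hRE.trans h1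
    exact le_of_mul_le_mul_right h2 (by linarith)
  obtain ⟨Z, hZ⟩ : ∃ Z, Z = G.filter (fun g => ¬ ZeroInM X (mem' fc S J g)) := ⟨_, rfl⟩
  rw [← hZ]
  have hZ0 : ∀ g ∈ Z, Nf g = 0 := by
    intro g hg
    rw [hZ, Finset.mem_filter] at hg
    rw [hNf]
    simp only [Nat.cast_eq_zero, Finset.card_eq_zero]
    apply Finset.filter_false_of_mem
    intro x hx heq
    apply hg.2
    refine ⟨x, hx, ?_⟩
    rw [hev g x hx, heq, sub_self, mul_zero]
  have hvar : (Z.card : ℝ) * E₁ ^ 2 ≤ ∑ g ∈ G, (Nf g - E₁) ^ 2 := by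
    calc (Z.card : ℝ) * E₁ ^ 2 = ∑ g ∈ Z, (Nf g - E₁) ^ 2 := by
          rw [Finset.sum_congr rfl (g := fun _ => E₁ ^ 2) (fun g hg => by rw [hZ0 g hg]; ring),
            Finset.sum_const, nsmul_eq_mul]
      _ ≤ ∑ g ∈ G, (Nf g - E₁) ^ 2 := by
          rw [hZ]
          exact Finset.sum_le_sum_of_subset_of_nonneg (Finset.filter_subset _ _)
            (fun _ _ _ => sq_nonneg _)
  have hexp : ∑ g ∈ G, (Nf g - E₁) ^ 2 = ∑ g ∈ G, (Nf g) ^ 2 - 2 * E₁ * ∑ g ∈ G, Nf g +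
      E₁ ^ 2 * G.card := by
    have : ∀ g, (Nf g - E₁) ^ 2 = (Nf g) ^ 2 - 2 * E₁ * Nf g + E₁ ^ 2 := by intro g; ring
    simp only [this]
    rw [Finset.sum_add_distrib, Finset.sum_sub_distrib, ← Finset.mul_sum, Finset.sum_const,
      nsmul_eq_mul]
    ring
  rw [hexp, hM2] at hvar
  nlinarith [mul_le_mul_of_nonneg_left hM1 hE₁]

end Pool.Agent.Y510.M6
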